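import Pool.Agent.Q186.SG.Final

/-!
Closed two-forms with values in a flat line bundle (helper186).
-/

set_option autoImplicit false

open Set Filter Topology MeasureTheory
open scoped Manifold ContDiff

noncomputable section

namespace Pool.Agent.Q186.FLP

open Pool.Agent.Y501.SYP Pool.Agent.Q186.SGP

section forms

variable {V : Type} [NormedAddCommGroup V] [NormedSpace ℝ V]
  {X : Type} [TopologicalSpace X] [ChartedSpace V X]

variable (V) in
/-- A closed two-form on the complement of `K` with values in a flat real line bundle: open sets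
`U i` which cover `X`, locally constant positive transition functions `c i j` on `U i ∩ U j` with
the cocycle condition, and two-forms `σ i`, smooth and closed on the part of `U i` outside `K`,
with `σ i = c i j • σ j` on the part of `U i ∩ U j` outside `K`. -/
structure TwistedForm (K : Set X) (ι : Type) where
  U : ι → Set X
  c : ι → ι → X → ℝ
  σ : ι → Form V X 2
  isOpen : ∀ i, IsOpen (U i)
  cover : ∀ x, ∃ i, x ∈ U i
  pos : ∀ i j, ∀ x ∈ U i ∩ U j, 0 < c i j x
  const : ∀ i j, ∀ x ∈ U i ∩ U j, ∀ᶠ y in 𝓝 x, c i j y = c i j x
  cocycle : ∀ i j k, ∀ x ∈ U i ∩ U j ∩ U k, c i j x * c j k x = c i k x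
  trans : ∀ i j, ∀ x ∈ U i ∩ U j, x ∉ K → σ i x = c i j x • σ j x
  closed : ∀ i, ClosedOff (σ i) (K ∪ (U i)ᶜ)

/-- the set of the points near which the form does not tame `J` uniformly off `K` -/
def TwistedForm.crit {K : Set X} {ι : Type} (S : TwistedForm V K ι) (J : End V X) : Set X :=
  {x | ∃ i, x ∈ S.U i ∧ ¬ UnifTamesNear (S.σ i) J K x}

/-- The twisted form weakly tames `J`: it is nonnegative on the `J`-complex lines off `K`, grows
slower than the distance to the power `-2` at the points of `K`, and the components of the set of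
the points near which it does not tame `J` uniformly are small at all their points. -/
structure TwistedForm.WeaklyTames [MeasurableSpace V] [BorelSpace V] {K : Set X} {ι : Type}
    (S : TwistedForm V K ι) (J : End V X) : Prop where
  nonneg : ∀ i, ∀ x ∈ S.U i, x ∉ K → ∀ v : TangentSpace 𝓘(ℝ, V) x, 0 ≤ qd (S.σ i) J x v
  slow : ∀ i, ∀ x ∈ S.U i, x ∈ K → SlowNear (S.σ i) K x
  small : ∀ z ∈ S.crit J, SmallAll J (connectedComponentIn (S.crit J) z) z

end forms

end Pool.Agent.Q186.FLP
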