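import Mathlib

/-!
Flat line bundles on simply connected spaces are trivial (helper186).
-/

set_option autoImplicit false

open Set Filter Topology

namespace Pool.Agent.Q186.FL

/-- the real numbers with the discrete topology -/
def DR : Type := ℝ

instance : TopologicalSpace DR := ⊥

instance : DiscreteTopology DR := ⟨rfl⟩

variable {X ι : Type} [TopologicalSpace X]

noncomputable def core (U : ι → Set X) (hU : ∀ i, IsOpen (U i)) (hc : ∀ x, ∃ i, x ∈ U i)
    (b : ι → ι → X → ℝ) (hb : ∀ i j, ∀ x ∈ U i ∩ U j, ∀ᶠ y in 𝓝 x, b i j y = b i j x)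
    (hco : ∀ i j k, ∀ x ∈ U i ∩ U j ∩ U k, b i j x + b j k x = b i k x) :
    FiberBundleCore ι X DR where
  baseSet := U
  isOpen_baseSet := hU
  indexAt := fun x => Classical.choose (hc x)
  mem_baseSet_at := fun x => Classical.choose_spec (hc x)
  coordChange := fun i j x a => (show ℝ from a) + b i j x
  coordChange_self := by
    intro i x hx v
    have h := hco i i i x ⟨⟨hx, hx⟩, hx⟩
    have h0 : b i i x = 0 := by linarith
    show (show ℝ from v) + b i i x = v
    rw [h0]; exact add_zero _
  continuousOn_coordChange := by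
    intro i j q hq
    apply ContinuousAt.continuousWithinAt
    obtain ⟨x, a⟩ := q
    have hx : x ∈ U i ∩ U j := hq.1
    have h1 : ∀ᶠ r : X × DR in 𝓝 (x, a), r.2 = a ∧ b i j r.1 = b i j x := by
      rw [nhds_prod_eq]
      refine Filter.Eventually.and ?_ ?_
      · have : ∀ᶠ r in 𝓝 a, r = a := by
          rw [nhds_discrete]; exact Filter.eventually_pure.2 rfl
        exact (Filter.Eventually.prod_inr this _)
      · exact (Filter.Eventually.prod_inl (hb i j x hx) _)
    apply ContinuousAt.congr (f := fun _ : X × DR => (show DR from (show ℝ from a) + b i j x))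
    · exact continuousAt_const
    · filter_upwards [h1] with r hr
      show (show ℝ from a) + b i j x = (show ℝ from r.2) + b i j r.1
      rw [hr.1, hr.2]
  coordChange_comp := by
    intro i j k x hx v
    have h := hco i j k x hx
    show ((show ℝ from v) + b i j x) + b j k x = (show ℝ from v) + b i k x
    rw [add_assoc, h]

/-- A cocycle of locally constant real functions on a simply connected space is a coboundary. -/
theorem triv [SimplyConnectedSpace X] [LocallyPathConnectedSpace X]
    (U : ι → Set X) (hU : ∀ i, IsOpen (U i)) (hc : ∀ x, ∃ i, x ∈ U i)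
    (b : ι → ι → X → ℝ) (hb : ∀ i j, ∀ x ∈ U i ∩ U j, ∀ᶠ y in 𝓝 x, b i j y = b i j x)
    (hco : ∀ i j k, ∀ x ∈ U i ∩ U j ∩ U k, b i j x + b j k x = b i k x) :
    ∃ g : ι → X → ℝ, (∀ i, ∀ x ∈ U i, ∀ᶠ y in 𝓝 x, g i y = g i x) ∧
      ∀ i j, ∀ x ∈ U i ∩ U j, g j x = g i x + b i j x := by
  classical
  set Z := core U hU hc b hb hco with hZ
  have hcov : IsCoveringMap (Bundle.TotalSpace.proj : Z.TotalSpace → X) :=
    FiberBundle.isCoveringMap (F := DR) (E := Z.Fiber)
  obtain ⟨x₀⟩ : Nonempty X := inferInstance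
  let e₀ : Z.TotalSpace := ⟨x₀, (show DR from (0 : ℝ))⟩
  obtain ⟨s, ⟨-, hs⟩, -⟩ := hcov.existsUnique_continuousMap_lifts (ContinuousMap.id X) x₀ e₀ rfl
  have hs' : ∀ x, (s x).proj = x := fun x => congrFun hs x
  refine ⟨fun i x => (show ℝ from (Z.localTriv i (s x)).2), ?_, ?_⟩
  · intro i x hx
    have hsrc : s x ∈ (Z.localTriv i).source := by
      rw [Z.mem_localTriv_source, ← Z.baseSet_at]
      have : (s x).1 = x := hs' x
      rw [this]; exact hx
    have hcont : ContinuousAt (fun y => (Z.localTriv i (s y)).2) x := by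
      have h1 : ContinuousAt (Z.localTriv i) (s x) :=
        (Z.localTriv i).continuousAt hsrc
      exact (h1.comp s.continuous.continuousAt).snd
    have h2 : ∀ᶠ z in 𝓝 ((Z.localTriv i (s x)).2), z = (Z.localTriv i (s x)).2 := by
      rw [nhds_discrete]; exact Filter.eventually_pure.2 rfl
    exact hcont.eventually h2
  · intro i j x hx
    have hp : (s x).1 = x := hs' x
    have h1 : ∀ k, (Z.localTriv k (s x)).2 = Z.coordChange (Z.indexAt (s x).1) k (s x).1 (s x).2 :=
      fun k => by rw [Z.localTriv_apply]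
    have hx' : (s x).1 ∈ U i ∩ U j := by rw [hp]; exact hx
    have h2 := hco (Z.indexAt (s x).1) i j (s x).1
      ⟨⟨Z.mem_baseSet_at (s x).1, hx'.1⟩, hx'.2⟩
    have h4 : b i j x = b i j (s x).1 := by rw [hp]
    have key : ∀ r : ℝ, r + b (Z.indexAt (s x).1) j (s x).1 =
        (r + b (Z.indexAt (s x).1) i (s x).1) + b i j x := by
      intro r; rw [h4]; linarith
    exact (h1 j).trans ((key _).trans (congrArg (fun t : ℝ => t + b i j x) (h1 i).symm))

end Pool.Agent.Q186.FL
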