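import Pool.Agent.Q186.SG.Final

/-!
# A taming form tames uniformly
-/

set_option autoImplicit false

open Set Filter Topology Metric Function
open scoped Manifold ContDiff

noncomputable section

namespace Pool.Agent.Q186.FL

open Pool.Agent.Y501.SY Pool.Agent.Y455.SY

theorem unif {d : ℕ} {X : Type} [TopologicalSpace X] [ChartedSpace (E d) X]
    [IsManifold (𝓡 d) ∞ X] {σ : Form d X 2} (hσ : IsSmooth σ) {J : End d X}
    (hJ : IsAlmostComplex J) {x : X} (hx : TamesAt σ J x) :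
    ∃ c : ℝ, 0 < c ∧ ∀ᶠ p in 𝓝 (chartAt (E d) x x), ∀ v : E d, c * ‖v‖ ^ 2 ≤ Q σ J x p v := by
  have hcx : chartAt (E d) x x ∈ (chartAt (E d) x).target := mem_chart_target (E d) x
  have hx' : ∀ v : E d, v ≠ 0 → 0 < Q σ J x (chartAt (E d) x x) v := by
    rw [← tames_iff σ J x hcx, (chartAt (E d) x).left_inv (mem_chart_source (E d) x)]
    exact hx
  have hcomp : IsCompact (sphere (0 : E d) 1) := isCompact_sphere _ _
  have hloc : ∃ c : ℝ, 0 < c ∧ ∀ᶠ p in 𝓝 (chartAt (E d) x x), ∀ v ∈ sphere (0 : E d) 1,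
      c ≤ Q σ J x p v := by
    refine hcomp.induction_on (p := fun S => ∃ c : ℝ, 0 < c ∧
      ∀ᶠ p in 𝓝 (chartAt (E d) x x), ∀ v ∈ S, c ≤ Q σ J x p v) ?_ ?_ ?_ ?_
    · exact ⟨1, one_pos, Eventually.of_forall fun z v hv => absurd hv (notMem_empty v)⟩
    · rintro s t hst ⟨c, hc, h⟩
      exact ⟨c, hc, h.mono fun z hz v hv => hz v (hst hv)⟩
    · rintro s t ⟨c, hc, h⟩ ⟨c', hc', h'⟩
      refine ⟨min c c', lt_min hc hc', ?_⟩
      filter_upwards [h, h'] with z hz hz' v hv
      rcases hv with hv | hv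
      · exact (min_le_left _ _).trans (hz v hv)
      · exact (min_le_right _ _).trans (hz' v hv)
    · intro v hv
      have hv0 : v ≠ 0 := by
        rintro rfl
        simp at hv
      have h1 := hx' v hv0
      have h2 := (Q_cont hσ hJ x hcx (v := v)).eventually
        (lt_mem_nhds (show Q σ J x (chartAt (E d) x x) v / 2 < Q σ J x (chartAt (E d) x x) v by
          linarith))
      rw [nhds_prod_eq] at h2
      obtain ⟨P1, hP1, P2, hP2, hP⟩ := eventually_prod_iff.1 h2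
      refine ⟨{u | P2 u}, mem_nhdsWithin_of_mem_nhds hP2, Q σ J x (chartAt (E d) x x) v / 2,
        by positivity, ?_⟩
      filter_upwards [hP1] with z hz u hu
      exact (hP hz hu).le
  obtain ⟨c, hc, h⟩ := hloc
  refine ⟨c, hc, ?_⟩
  filter_upwards [h] with z hz v
  rcases eq_or_ne v 0 with rfl | hv
  · have h1 := Q_smul σ J x z 0 0
    simp only [smul_zero] at h1
    rw [norm_zero, h1]
    simp
  · have h1 : v = ‖v‖ • (‖v‖⁻¹ • v) := by
      rw [smul_smul, mul_inv_cancel₀ (norm_ne_zero_iff.2 hv), one_smul]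
    have h2 : ‖v‖⁻¹ • v ∈ sphere (0 : E d) 1 := by
      rw [mem_sphere_zero_iff_norm, norm_smul, norm_inv, norm_norm,
        inv_mul_cancel₀ (norm_ne_zero_iff.2 hv)]
    have h3 := hz _ h2
    have h4 : Q σ J x z v = ‖v‖ ^ 2 * Q σ J x z (‖v‖⁻¹ • v) := by
      conv_lhs => rw [h1]
      rw [Q_smul]
    have h5 : 0 ≤ ‖v‖ ^ 2 := by positivity
    rw [h4]
    nlinarith

end Pool.Agent.Q186.FL
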