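import Pool.Agent.Q186.FL.Defs
import Pool.Agent.Q186.FL.Triv
import Pool.Agent.Q186.FL.Unif

/-!
Weakly taming forms with values in a flat line bundle on a simply connected manifold (helper186).
-/

set_option autoImplicit false

open Set Filter Topology MeasureTheory
open scoped Manifold ContDiff

noncomputable section

namespace Pool.Agent.Q186.FLP

open Pool.Agent.Y501.SYP Pool.Agent.Q186.SGP

variable {d : ℕ} {X : Type} [TopologicalSpace X] [ChartedSpace (ES d) X]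

theorem pb_smul' {V : Type} [NormedAddCommGroup V] [NormedSpace ℝ V]
    {X : Type} [TopologicalSpace X] [ChartedSpace V X] {φ : V → X} {σ σ' : Form V X 2} {a : ℝ}
    {p : V} (h : σ' (φ p) = a • σ (φ p)) : pb φ σ' p = a • pb φ σ p := by
  unfold pb
  rw [h]
  rfl

theorem exists_scale [SimplyConnectedSpace X] {K : Set X} {ι : Type}
    (S : TwistedForm (ES d) K ι) :
    ∃ g : ι → X → ℝ, (∀ i, ∀ x ∈ S.U i, 0 < g i x ∧ ∀ᶠ y in 𝓝 x, g i y = g i x) ∧
      ∀ i j, ∀ x ∈ S.U i ∩ S.U j, g i x * S.c i j x = g j x := by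
  have : LocallyPathConnectedSpace (ES d) :=
    (inferInstance : LocallyPathConnectedSpace (EuclideanSpace ℝ (Fin d)))
  have : LocallyPathConnectedSpace X := ChartedSpace.locallyPathConnectedSpace (ES d) X
  obtain ⟨g, hg1, hg2⟩ := Pool.Agent.Q186.FL.triv S.U S.isOpen S.cover
    (fun i j x => Real.log (S.c i j x))
    (fun i j x hx => (S.const i j x hx).mono fun y hy => by rw [hy])
    (fun i j k x hx => by
      rw [← Real.log_mul (S.pos i j x hx.1).ne' (S.pos j k x ⟨hx.1.2, hx.2⟩).ne',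
        S.cocycle i j k x hx])
  refine ⟨fun i x => Real.exp (g i x), fun i x hx => ⟨Real.exp_pos _, ?_⟩, ?_⟩
  · exact (hg1 i x hx).mono fun y hy => by simp only [hy]
  · intro i j x hx
    show Real.exp (g i x) * S.c i j x = Real.exp (g j x)
    rw [hg2 i j x hx, Real.exp_add, Real.exp_log (S.pos i j x hx)]

section

variable {K : Set X} {ι : Type} (S : TwistedForm (ES d) K ι) (g : ι → X → ℝ)

/-- the index of a point -/
def idx (x : X) : ι := Classical.choose (S.cover x)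

theorem idx_mem (x : X) : x ∈ S.U (idx S x) := Classical.choose_spec (S.cover x)

/-- the global form -/
def glob : Form (ES d) X 2 := fun x => g (idx S x) x • S.σ (idx S x) x

variable {S g}

theorem glob_eq (h2 : ∀ i j, ∀ x ∈ S.U i ∩ S.U j, g i x * S.c i j x = g j x) (i : ι) (x : X)
    (hx : x ∈ S.U i) (hxK : x ∉ K) : glob S g x = g i x • S.σ i x := by
  have h := S.trans i (idx S x) x ⟨hx, idx_mem S x⟩ hxK
  unfold glob
  rw [h, smul_smul, h2 i (idx S x) x ⟨hx, idx_mem S x⟩]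

theorem glob_closed
    (h1 : ∀ i, ∀ x ∈ S.U i, 0 < g i x ∧ ∀ᶠ y in 𝓝 x, g i y = g i x)
    (h2 : ∀ i j, ∀ x ∈ S.U i ∩ S.U j, g i x * S.c i j x = g j x) : ClosedOff (glob S g) K := by
  intro U φ hφ hp
  have key : ∀ p ∈ U, ∃ (i : ι) (a : ℝ) (W : Set (ES d)), IsOpen W ∧ p ∈ W ∧ W ⊆ U ∧
      SmoothParam W φ ∧ (∀ q ∈ W, φ q ∉ K ∪ (S.U i)ᶜ) ∧
      ∀ q ∈ W, pb φ (glob S g) q = a • pb φ (S.σ i) q := by
    intro p hpU
    set x := φ p with hx
    have hxi := idx_mem S x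
    set i := idx S x with hi
    obtain ⟨V', hV'1, hV'2, hV'3⟩ := eventually_nhds_iff.1
      (((h1 i x hxi).2).and ((S.isOpen i).eventually_mem hxi))
    have hcont : ContinuousOn φ U := hφ.2.continuousOn
    refine ⟨i, g i x, U ∩ φ ⁻¹' V', hcont.isOpen_inter_preimage hφ.1 hV'2, ⟨hpU, hV'3⟩,
      inter_subset_left, ⟨hcont.isOpen_inter_preimage hφ.1 hV'2, hφ.2.mono inter_subset_left⟩,
      ?_, ?_⟩
    · rintro q ⟨hq1, hq2⟩ (h | h)
      · exact hp q hq1 h
      · exact h (hV'1 _ hq2).2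
    · rintro q ⟨hq1, hq2⟩
      apply pb_smul'
      rw [glob_eq h2 i (φ q) (hV'1 _ hq2).2 (hp q hq1), (hV'1 _ hq2).1]
  constructor
  · intro p hpU
    obtain ⟨i, a, W, hW, hpW, hWU, hWs, hWK, hWe⟩ := key p hpU
    have h3 := (S.closed i W φ hWs hWK).1
    have h4 : ContDiffOn ℝ ∞ (pb φ (glob S g)) W :=
      (h3.const_smul a).congr hWe
    exact (h4.contDiffAt (hW.mem_nhds hpW)).contDiffWithinAt
  · intro p hpU
    obtain ⟨i, a, W, hW, hpW, hWU, hWs, hWK, hWe⟩ := key p hpU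
    have h3 := (S.closed i W φ hWs hWK).2 p hpW
    have h4 : pb φ (glob S g) =ᶠ[𝓝 p] fun q => a • pb φ (S.σ i) q := by
      filter_upwards [hW.mem_nhds hpW] with q hq using hWe q hq
    rw [h4.extDeriv_eq]
    exact (extDeriv_fun_smul a (pb φ (S.σ i))).trans (by rw [h3, smul_zero])

theorem glob_near (h1 : ∀ i, ∀ x ∈ S.U i, 0 < g i x ∧ ∀ᶠ y in 𝓝 x, g i y = g i x)
    (h2 : ∀ i j, ∀ x ∈ S.U i ∩ S.U j, g i x * S.c i j x = g j x) (i : ι) (x : X)
    (hx : x ∈ S.U i) : ∀ᶠ p in 𝓝 (chartAt (ES d) x x), (chartAt (ES d) x).symm p ∉ K →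
      pb (chartAt (ES d) x).symm (glob S g) p = g i x • pb (chartAt (ES d) x).symm (S.σ i) p := by
  have hcont : ContinuousAt (chartAt (ES d) x).symm (chartAt (ES d) x x) :=
    (chartAt (ES d) x).continuousAt_symm (mem_chart_target (ES d) x)
  have h3 : ∀ᶠ y in 𝓝 ((chartAt (ES d) x).symm (chartAt (ES d) x x)), g i y = g i x ∧ y ∈ S.U i := by
    rw [(chartAt (ES d) x).left_inv (mem_chart_source (ES d) x)]
    exact ((h1 i x hx).2).and ((S.isOpen i).eventually_mem hx)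
  filter_upwards [hcont.eventually h3] with p hp hpK
  apply pb_smul'
  rw [glob_eq h2 i _ hp.2 hpK, hp.1]

theorem glob_slow (h1 : ∀ i, ∀ x ∈ S.U i, 0 < g i x ∧ ∀ᶠ y in 𝓝 x, g i y = g i x)
    (h2 : ∀ i j, ∀ x ∈ S.U i ∩ S.U j, g i x * S.c i j x = g j x) (i : ι) (x : X)
    (hx : x ∈ S.U i) (h : SlowNear (S.σ i) K x) : SlowNear (glob S g) K x := by
  obtain ⟨a, C, ha, hC⟩ := h
  refine ⟨a, g i x * C, ha, ?_⟩
  filter_upwards [hC, glob_near h1 h2 i x hx] with p hp hp' hpK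
  rw [hp' hpK, norm_smul, Real.norm_of_nonneg (h1 i x hx).1.le, mul_assoc]
  exact mul_le_mul_of_nonneg_left (hp hpK) (h1 i x hx).1.le

theorem glob_unif (J : End (ES d) X)
    (h1 : ∀ i, ∀ x ∈ S.U i, 0 < g i x ∧ ∀ᶠ y in 𝓝 x, g i y = g i x)
    (h2 : ∀ i j, ∀ x ∈ S.U i ∩ S.U j, g i x * S.c i j x = g j x) (i : ι) (x : X)
    (hx : x ∈ S.U i) : UnifTamesNear (glob S g) J K x ↔ UnifTamesNear (S.σ i) J K x := by
  have hg := (h1 i x hx).1
  constructor
  · rintro ⟨c, hc, h⟩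
    refine ⟨(g i x)⁻¹ * c, by positivity, ?_⟩
    filter_upwards [h, glob_near h1 h2 i x hx] with p hp hp' hpK v
    have h3 := hp hpK v
    rw [hp' hpK] at h3
    have h4 : (g i x • pb (chartAt (ES d) x).symm (S.σ i) p) ![v, inChart J x p v] =
        g i x * pb (chartAt (ES d) x).symm (S.σ i) p ![v, inChart J x p v] := rfl
    rw [h4] at h3
    rw [mul_assoc]
    calc (g i x)⁻¹ * (c * ‖v‖ ^ 2) ≤ (g i x)⁻¹ *
        (g i x * pb (chartAt (ES d) x).symm (S.σ i) p ![v, inChart J x p v]) :=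
          mul_le_mul_of_nonneg_left h3 (inv_nonneg.2 hg.le)
      _ = _ := by rw [← mul_assoc, inv_mul_cancel₀ hg.ne', one_mul]
  · rintro ⟨c, hc, h⟩
    refine ⟨g i x * c, by positivity, ?_⟩
    filter_upwards [h, glob_near h1 h2 i x hx] with p hp hp' hpK v
    have h3 := hp hpK v
    rw [hp' hpK]
    have h4 : (g i x • pb (chartAt (ES d) x).symm (S.σ i) p) ![v, inChart J x p v] =
        g i x * pb (chartAt (ES d) x).symm (S.σ i) p ![v, inChart J x p v] := rfl
    rw [h4, mul_assoc]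
    exact mul_le_mul_of_nonneg_left h3 hg.le

theorem glob_crit (J : End (ES d) X)
    (h1 : ∀ i, ∀ x ∈ S.U i, 0 < g i x ∧ ∀ᶠ y in 𝓝 x, g i y = g i x)
    (h2 : ∀ i j, ∀ x ∈ S.U i ∩ S.U j, g i x * S.c i j x = g j x) :
    Crit (glob S g) J K = S.crit J := by
  ext x
  constructor
  · intro h
    exact ⟨idx S x, idx_mem S x, fun h' => h ((glob_unif J h1 h2 _ x (idx_mem S x)).2 h')⟩
  · rintro ⟨i, hi, h⟩ h'
    exact h ((glob_unif J h1 h2 i x hi).1 h')

end

/-- On a simply connected closed manifold weakly taming forms with values in a flat line bundle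
can be corrected to symplectic forms. -/
theorem flat [IsManifold 𝓘(ℝ, ES d) ∞ X] [CompactSpace X] [T2Space X] [SimplyConnectedSpace X]
    (hd : 3 ≤ d) (J : End (ES d) X) (hJ : IsAlmostComplex J) (K : Set X) (hK : IsClosed K)
    (hH : ∀ x₀ : X, μH[(d : ℝ) - 1] (chartAt (ES d) x₀ '' (K ∩ (chartAt (ES d) x₀).source)) = 0)
    {ι : Type} (S : TwistedForm (ES d) K ι) (hS : S.WeaklyTames J) :
    ∃ g : ι → X → ℝ, (∀ i, ∀ x ∈ S.U i, 0 < g i x ∧ ∀ᶠ y in 𝓝 x, g i y = g i x) ∧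
      (∀ i j, ∀ x ∈ S.U i ∩ S.U j, g i x * S.c i j x = g j x) ∧
      ∀ O : Set X, IsOpen O → K ⊆ O →
        ∃ (α : Form (ES d) X 1) (η w : Form (ES d) X 2), IsSmooth α ∧ IsSmooth η ∧ IsD α η ∧
          IsTamingSymplectic w J ∧ ∀ i, ∀ x ∈ S.U i, x ∉ O → w x = g i x • S.σ i x + η x := by
  obtain ⟨g, h1, h2⟩ := exists_scale S
  refine ⟨g, h1, h2, fun O hO hKO => ?_⟩
  obtain ⟨α, η, w, g1, g2, g3, g4, g5⟩ := unboundedSing hd J hJ K hK hH (glob S g)
    (glob_closed h1 h2)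
    (fun x hx => glob_slow h1 h2 (idx S x) x (idx_mem S x) (hS.slow _ x (idx_mem S x) hx))
    (fun x hx v => by
      have h3 := hS.nonneg (idx S x) x (idx_mem S x) hx v
      have h4 : qd (glob S g) J x v = g (idx S x) x * qd (S.σ (idx S x)) J x v := rfl
      rw [h4]
      exact mul_nonneg (h1 _ x (idx_mem S x)).1.le h3)
    (fun z hz => by
      rw [glob_crit J h1 h2] at hz ⊢
      exact hS.small z hz)
    O hO hKO
  refine ⟨α, η, w, g1, g2, g3, g4, fun i x hx hxO => ?_⟩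
  rw [g5 x hxO]
  show glob S g x + η x = _
  rw [glob_eq h2 i x hx (fun h => hxO (hKO h))]

/-- the twisted form given by a closed form -/
def ofForm (w : Form (ES d) X 2) (hw : ClosedOff w ∅) : TwistedForm (ES d) (∅ : Set X) Unit where
  U := fun _ => univ
  c := fun _ _ _ => 1
  σ := fun _ => w
  isOpen := fun _ => isOpen_univ
  cover := fun x => ⟨(), mem_univ x⟩
  pos := fun _ _ _ _ => one_pos
  const := fun _ _ _ _ => Eventually.of_forall fun _ => rfl
  cocycle := fun _ _ _ _ _ => one_mul _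
  trans := fun _ _ _ _ _ => (one_smul _ _).symm
  closed := fun _ U φ hφ hp => hw U φ hφ fun p _ h => h

attribute [local instance] cs mf

theorem unifTames [IsManifold 𝓘(ℝ, ES d) ∞ X] {w : Form (ES d) X 2} {J : End (ES d) X}
    (hJ : IsAlmostComplex J) (hw : IsTamingSymplectic w J) (x : X) : UnifTamesNear w J ∅ x := by
  obtain ⟨c, hc, h⟩ := Pool.Agent.Q186.FL.unif (d := d) (X := X) (σ := w)
    ((smooth_iff w).1 hw.smooth) (ac_of J hJ) (x := x) (hw.tames x)
  exact ⟨c, hc, h.mono (fun _ hq _ v => hq v)⟩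

theorem weak_of [IsManifold 𝓘(ℝ, ES d) ∞ X] {w : Form (ES d) X 2} {J : End (ES d) X}
    (hJ : IsAlmostComplex J) (hw : IsTamingSymplectic w J) :
    ∃ S : TwistedForm (ES d) (∅ : Set X) Unit, S.WeaklyTames J := by
  refine ⟨ofForm w (fun U φ hφ _ => ⟨hw.smooth U φ hφ, hw.closed U φ hφ⟩), ?_, ?_, ?_⟩
  · intro i x _ _ v
    rcases eq_or_ne v 0 with rfl | hv
    · have : qd w J x 0 = 0 := by
        unfold qd
        exact (w x).map_coord_zero 0 rfl
      exact this.ge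
    · exact (hw.tames x v hv).le
  · intro i x _ hx
    exact absurd hx (notMem_empty x)
  · rintro z ⟨i, _, h⟩
    exact absurd (unifTames hJ hw z) h

end Pool.Agent.Q186.FLP
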